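import Mathlib

set_option autoImplicit false

open Set
open scoped Pointwise commutatorElement

namespace Pool.Agent.H80.BT

/-- Standing hypotheses: a perfect locally finite barely transitive `p`-group. -/
structure Ctx (G : Type*) [Group G] (Ω : Type*) [MulAction G Ω] (p : ℕ) : Prop where
  inf : Infinite Ω
  trans : MulAction.IsPretransitive G Ω
  bt : ∀ K : Subgroup G, K ≠ ⊤ → ∀ ω : Ω, (Set.range (fun k : K => (k : G) • ω)).Finite
  lf : ∀ s : Set G, s.Finite → ((Subgroup.closure s : Subgroup G) : Set G).Finite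
  perf : commutator G = ⊤
  prime : p.Prime
  pgrp : IsPGroup p G

variable {G : Type*} [Group G] {Ω : Type*} [MulAction G Ω] {p : ℕ}

theorem Ctx.orb (c : Ctx G Ω p) {K : Subgroup G} (hK : K ≠ ⊤) (ω : Ω) :
    ((fun g : G => g • ω) '' (K : Set G)).Finite := by
  have := c.bt K hK ω
  apply this.subset
  rintro _ ⟨g, hg, rfl⟩
  exact ⟨⟨g, hg⟩, rfl⟩

/-- if finitely many translates reach everything then contradiction -/
theorem Ctx.false_of_fin (c : Ctx G Ω p) (ω : Ω) (Y : Set G) (hY : ∀ g : G, g ∈ Y)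
    (h : ((fun g : G => g • ω) '' Y).Finite) : False := by
  have := c.inf
  have := c.trans
  apply Set.infinite_univ (α := Ω)
  apply h.subset
  intro x _
  obtain ⟨g, hg⟩ := MulAction.exists_smul_eq G ω x
  exact ⟨g, hY g, hg⟩

theorem Ctx.closure_ne_top (c : Ctx G Ω p) {F : Set G} (hF : F.Finite) :
    Subgroup.closure F ≠ ⊤ := by
  intro h
  have := c.inf
  obtain ⟨ω⟩ : Nonempty Ω := inferInstance
  apply c.false_of_fin ω (Subgroup.closure F : Set G) (by rw [h]; intro g; trivial)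
  exact (c.lf F hF).image _

theorem Ctx.stab_ne_top (c : Ctx G Ω p) (ω : Ω) : MulAction.stabilizer G ω ≠ ⊤ := by
  intro h
  apply c.false_of_fin ω (MulAction.stabilizer G ω : Set G) (by rw [h]; intro g; trivial)
  apply (Set.finite_singleton ω).subset
  rintro _ ⟨g, hg, rfl⟩
  exact hg

/-- `X` covered by finitely many cosets of the stabiliser -/
theorem exists_reps (ω : Ω) (X : Set G) (h : ((fun g : G => g • ω) '' X).Finite) :
    ∃ t : Set G, t.Finite ∧ t ⊆ X ∧ ∀ x ∈ X, ∃ y ∈ t, y⁻¹ * x ∈ MulAction.stabilizer G ω := by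
  classical
  have : ∀ q : Ω, ∃ g : G, q ∈ ((fun g : G => g • ω) '' X) → g ∈ X ∧ g • ω = q := by
    intro q
    by_cases hq : q ∈ ((fun g : G => g • ω) '' X)
    · obtain ⟨g, hg, hg2⟩ := hq
      exact ⟨g, fun _ => ⟨hg, hg2⟩⟩
    · exact ⟨1, fun h => (hq h).elim⟩
  choose f hf using this
  refine ⟨f '' ((fun g : G => g • ω) '' X), h.image f, ?_, ?_⟩
  · rintro _ ⟨q, hq, rfl⟩
    exact (hf q hq).1
  · intro x hx
    refine ⟨f (x • ω), ⟨x • ω, ⟨x, hx, rfl⟩, rfl⟩, ?_⟩
    have := (hf (x • ω) ⟨x, hx, rfl⟩).2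
    rw [MulAction.mem_stabilizer_iff, mul_smul, inv_smul_eq_iff, this]

theorem Ctx.adj (c : Ctx G Ω p) (ω : Ω) {X : Subgroup G} (hX : MulAction.stabilizer G ω ≤ X)
    (hXt : X ≠ ⊤) {F : Set G} (hF : F.Finite) : X ⊔ Subgroup.closure F ≠ ⊤ := by
  intro htop
  set Q : Set G := (X : Set G) ∪ (F ∪ F⁻¹) with hQ
  have hQf : ∀ α : Ω, ((fun g : G => g • α) '' Q).Finite := by
    intro α
    rw [hQ, Set.image_union]
    exact (c.orb hXt α).union ((hF.union hF.inv).image _)
  have hQQ : ((fun g : G => g • ω) '' (Q * Q)).Finite := by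
    have h1 : ((fun g : G => g • ω) '' (Q * Q)) ⊆
        ⋃ α ∈ ((fun g : G => g • ω) '' Q), ((fun g : G => g • α) '' Q) := by
      rintro _ ⟨_, ⟨a, ha, b, hb, rfl⟩, rfl⟩
      refine Set.mem_biUnion ⟨b, hb, rfl⟩ ⟨a, ha, ?_⟩
      simp only [mul_smul]
    exact ((hQf ω).biUnion (fun α _ => hQf α)).subset h1
  obtain ⟨t, htf, -, ht⟩ := exists_reps ω (Q * Q) hQQ
  set T := Subgroup.closure t with hT
  set Y : Set G := (T : Set G) * (X : Set G) with hY
  have h1Y : (1 : G) ∈ Y := ⟨1, one_mem _, 1, one_mem _, by simp⟩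
  have hYQ : ∀ y ∈ Y, ∀ q ∈ Q, y * q ∈ Y := by
    rintro _ ⟨a, ha, x, hx, rfl⟩ q hq
    obtain ⟨s, hs, hsq⟩ := ht (x * q) ⟨x, Or.inl hx, q, hq, rfl⟩
    refine ⟨a * s, mul_mem ha (Subgroup.subset_closure hs), s⁻¹ * (x * q), hX hsq, ?_⟩
    simp only
    group
  have hQinv : ∀ q ∈ Q, q⁻¹ ∈ Q := by
    rintro q (hq | hq | hq)
    · exact Or.inl (inv_mem hq)
    · exact Or.inr (Or.inr (by simpa using hq))
    · exact Or.inr (Or.inl (by simpa using hq))
  have hcl : ∀ g : G, g ∈ Y := by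
    intro g
    have hg : g ∈ Subgroup.closure Q := by
      have : X ⊔ Subgroup.closure F ≤ Subgroup.closure Q := by
        apply sup_le
        · intro x hx
          exact Subgroup.subset_closure (Or.inl hx)
        · apply Subgroup.closure_mono
          intro f hf
          exact Or.inr (Or.inl hf)
      apply this
      rw [htop]; trivial
    have key : ∀ x ∈ Subgroup.closure Q, ∀ y ∈ Y, y * x ∈ Y := by
      intro x hx
      induction hx using Subgroup.closure_induction'' with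
      | mem x hx => exact fun y hy => hYQ y hy x hx
      | inv_mem x hx => exact fun y hy => hYQ y hy _ (hQinv x hx)
      | one => intro y hy; simpa using hy
      | mul x z _ _ ihx ihz =>
        intro y hy
        rw [← mul_assoc]
        exact ihz _ (ihx y hy)
    simpa using key g hg 1 h1Y
  apply c.false_of_fin ω Y hcl
  have h1 : ((fun g : G => g • ω) '' Y) ⊆
      ⋃ α ∈ ((fun g : G => g • ω) '' (X : Set G)), ((fun g : G => g • α) '' (T : Set G)) := by
    rintro _ ⟨_, ⟨a, ha, b, hb, rfl⟩, rfl⟩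
    refine Set.mem_biUnion ⟨b, hb, rfl⟩ ⟨a, ha, ?_⟩
    simp only [mul_smul]
  exact ((c.orb hXt ω).biUnion (fun α _ => (c.lf t htf).image _)).subset h1

theorem Ctx.sup_ne_top (c : Ctx G Ω p) {X Y : Subgroup G} (hX : X ≠ ⊤) (hY : Y ≠ ⊤) :
    X ⊔ Y ≠ ⊤ := by
  have := c.inf
  obtain ⟨ω⟩ : Nonempty Ω := inferInstance
  have key : ∀ X : Subgroup G, X ≠ ⊤ → ∃ s : Set G, s.Finite ∧
      X ≤ MulAction.stabilizer G ω ⊔ Subgroup.closure s := by
    intro X hX
    obtain ⟨t, htf, -, ht⟩ := exists_reps ω (X : Set G) (c.orb hX ω)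
    refine ⟨t, htf, ?_⟩
    intro x hx
    obtain ⟨y, hy, hyx⟩ := ht x hx
    have h : x = y * (y⁻¹ * x) := by group
    rw [h]
    exact mul_mem (Subgroup.mem_sup_right (Subgroup.subset_closure hy))
      (Subgroup.mem_sup_left hyx)
  obtain ⟨s, hs, hXs⟩ := key X hX
  obtain ⟨t, ht, hYt⟩ := key Y hY
  intro h
  apply c.adj ω le_rfl (c.stab_ne_top ω) (hs.union ht)
  rw [eq_top_iff, ← h]
  apply sup_le
  · exact hXs.trans (sup_le_sup_left (Subgroup.closure_mono Set.subset_union_left) _)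
  · exact hYt.trans (sup_le_sup_left (Subgroup.closure_mono Set.subset_union_right) _)

theorem Ctx.bot_ne_top (c : Ctx G Ω p) : (⊥ : Subgroup G) ≠ ⊤ := by
  have := c.closure_ne_top (F := ∅) Set.finite_empty
  rwa [Subgroup.closure_empty] at this

theorem Ctx.biSup_ne_top (c : Ctx G Ω p) {ι : Type*} (A : Set ι) (hA : A.Finite)
    (f : ι → Subgroup G) (hf : ∀ i ∈ A, f i ≠ ⊤) : (⨆ i ∈ A, f i) ≠ ⊤ := by
  induction A, hA using Set.Finite.induction_on with
  | empty => simpa using c.bot_ne_top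
  | @insert a s ha hs ih =>
    rw [iSup_insert]
    exact c.sup_ne_top (hf a (Set.mem_insert _ _)) (ih (fun i hi => hf i (Set.mem_insert_of_mem _ hi)))

/-- finite fibres argument. -/
theorem Ctx.preimage_bdd (c : Ctx G Ω p) {X : Type*} {Z : Subgroup G} (hZ : Z ≠ ⊤) (f : G → X)
    (hf : ∀ g h, f g = f h → g⁻¹ * h ∈ Z) {A : Set X} (hA : A.Finite) :
    ∃ C : Subgroup G, C ≠ ⊤ ∧ ∀ g, f g ∈ A → g ∈ C := by
  classical
  have : ∀ a : X, ∃ g : G, (∃ g, f g = a) → f g = a := by
    intro a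
    by_cases h : ∃ g, f g = a
    · obtain ⟨g, hg⟩ := h
      exact ⟨g, fun _ => hg⟩
    · exact ⟨1, fun h' => (h h').elim⟩
  choose r hr using this
  refine ⟨Z ⊔ Subgroup.closure (r '' A), c.sup_ne_top hZ (c.closure_ne_top (hA.image r)), ?_⟩
  intro g hg
  have h1 : f (r (f g)) = f g := hr (f g) ⟨g, rfl⟩
  have h2 := hf _ _ h1
  have h3 : g = r (f g) * ((r (f g))⁻¹ * g) := by group
  rw [h3]
  exact mul_mem (Subgroup.mem_sup_right (Subgroup.subset_closure ⟨f g, hg, rfl⟩))
    (Subgroup.mem_sup_left h2)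

/-- a subgroup for which `G/Z` injects into a finite set is everything. -/
theorem Ctx.eq_top_of_finite (c : Ctx G Ω p) {X : Type*} (Z : Subgroup G)
    (f : G → X) (hf : ∀ g h, f g = f h → g⁻¹ * h ∈ Z) (hA : (Set.range f).Finite) : Z = ⊤ := by
  by_contra h
  obtain ⟨C, hC1, hC2⟩ := c.preimage_bdd h f hf hA
  apply hC1
  rw [eq_top_iff]
  intro x _
  exact hC2 x ⟨x, rfl⟩

/-- the subgroup of elements commuting with `x` modulo `N` -/
def cenModOf (N : Subgroup G) [N.Normal] (x : G) : Subgroup G :=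
  (Subgroup.centralizer {QuotientGroup.mk' N x}).comap (QuotientGroup.mk' N)

theorem mem_cenModOf {N : Subgroup G} [N.Normal] {x g : G} :
    g ∈ cenModOf N x ↔ ⁅x, g⁆ ∈ N := by
  rw [cenModOf, Subgroup.mem_comap, Subgroup.mem_centralizer_singleton_iff]
  rw [← QuotientGroup.eq_one_iff]
  have h2 : ((⁅x, g⁆ : G) : G ⧸ N) = ⁅QuotientGroup.mk' N x, QuotientGroup.mk' N g⁆ := by
    rw [← map_commutatorElement]; rfl
  rw [h2, commutatorElement_eq_one_iff_mul_comm]
  exact eq_comm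

/-- finite sections are centralised -/
theorem Ctx.commutator_le_of_finite (c : Ctx G Ω p) (R S : Subgroup G) [R.Normal] [S.Normal]
    (hfin : ((fun x : G => (x : G ⧸ S)) '' (R : Set G)).Finite) :
    ⁅R, (⊤ : Subgroup G)⁆ ≤ S := by
  rw [Subgroup.commutator_le]
  intro x hx g _
  have : cenModOf S x = ⊤ := by
    apply c.eq_top_of_finite (cenModOf S x)
      (fun g : G => ((g * x * g⁻¹ : G) : G ⧸ S))
    · intro g h hgh
      rw [mem_cenModOf]
      have h1 : (g * x * g⁻¹)⁻¹ * (h * x * h⁻¹) ∈ S := QuotientGroup.eq.mp hgh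
      have h2 : ⁅x, g⁻¹ * h⁆ = x * (g⁻¹ * ((g * x * g⁻¹)⁻¹ * (h * x * h⁻¹))⁻¹ * g) * x⁻¹ := by
        simp [commutatorElement_def, mul_assoc]
      rw [h2]
      apply Subgroup.Normal.conj_mem inferInstance
      have := Subgroup.Normal.conj_mem (H := S) inferInstance _ (inv_mem h1) g⁻¹
      rwa [inv_inv] at this
    · apply hfin.subset
      rintro _ ⟨g, rfl⟩
      exact ⟨g * x * g⁻¹, Subgroup.Normal.conj_mem inferInstance _ hx g, rfl⟩
  apply mem_cenModOf.mp
  rw [this]; trivial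

/-- three subgroups lemma consequence -/
theorem Ctx.sharp (c : Ctx G Ω p) (R : Subgroup G) [R.Normal] :
    ⁅R, (⊤ : Subgroup G)⁆ ≤ ⁅⁅R, (⊤ : Subgroup G)⁆, (⊤ : Subgroup G)⁆ := by
  set R1 := ⁅R, (⊤ : Subgroup G)⁆ with hR1
  set D := ⁅R1, (⊤ : Subgroup G)⁆ with hD
  have hx : ∀ x ∈ R, cenModOf D x = ⊤ := by
    intro x hx
    have h1 : commutator G ≤ cenModOf D x := by
      rw [commutator_def, Subgroup.commutator_le]
      intro a _ b _
      rw [mem_cenModOf]
      have hc : ∀ g h : G, ⁅⁅x, g⁆, h⁆ ∈ D := by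
        intro g h
        apply Subgroup.commutator_mem_commutator _ (Subgroup.mem_top h)
        exact Subgroup.commutator_mem_commutator hx (Subgroup.mem_top g)
      have hq : ∀ g h : G, Commute (QuotientGroup.mk' D ⁅x, g⁆) (QuotientGroup.mk' D h) := by
        intro g h
        have h2 : (QuotientGroup.mk' D) ⁅⁅x, g⁆, h⁆ = 1 := (QuotientGroup.eq_one_iff _).mpr (hc g h)
        rw [map_commutatorElement, commutatorElement_eq_one_iff_mul_comm] at h2
        exact h2
      rw [← QuotientGroup.eq_one_iff]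
      have key : ∀ u v w : G ⧸ D, (∀ g h : G ⧸ D, Commute ⁅u, g⁆ h) → ⁅u, ⁅v, w⁆⁆ = 1 := by
        intro u v w huv
        have hmul : ∀ g h : G ⧸ D, ⁅u, g * h⁆ = ⁅u, g⁆ * ⁅u, h⁆ := by
          intro g h
          have h1 : ⁅u, g * h⁆ = ⁅u, g⁆ * (g * ⁅u, h⁆ * g⁻¹) := by
            simp only [commutatorElement_def]
            group
          rw [h1]
          congr 1
          rw [← (huv h g).eq, mul_assoc, mul_inv_cancel, mul_one]
        have hinv : ∀ g : G ⧸ D, ⁅u, g⁻¹⁆ = ⁅u, g⁆⁻¹ := by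
          intro g
          have := hmul g g⁻¹
          rw [mul_inv_cancel, commutatorElement_one_right] at this
          exact (inv_eq_of_mul_eq_one_right this.symm).symm
        have h3 : ⁅u, ⁅v, w⁆⁆ = ⁅u, v⁆ * ⁅u, w⁆ * ⁅u, v⁆⁻¹ * ⁅u, w⁆⁻¹ := by
          conv_lhs => rw [commutatorElement_def v w]
          rw [hmul, hmul, hmul, hinv, hinv]
        rw [h3]
        have h4 := (huv v ⁅u, w⁆).eq
        rw [h4]
        group
      have h5 := key (QuotientGroup.mk' D x) (QuotientGroup.mk' D a) (QuotientGroup.mk' D b) (by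
        intro g h
        obtain ⟨g, rfl⟩ := QuotientGroup.mk'_surjective _ g
        obtain ⟨h, rfl⟩ := QuotientGroup.mk'_surjective _ h
        rw [← map_commutatorElement]
        exact hq g h)
      rw [← map_commutatorElement, ← map_commutatorElement] at h5
      exact h5
    exact eq_top_iff.mpr (c.perf.ge.trans h1)
  rw [hR1, Subgroup.commutator_le]
  intro x hxR g _
  apply mem_cenModOf.mp
  rw [hx x hxR]; trivial

end Pool.Agent.H80.BT
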