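import Pool.Agent.H80.BT.A
import Pool.Agent.H80.LN.C4

set_option autoImplicit false

open Set
open scoped Pointwise commutatorElement

namespace Pool.Agent.H80.BT

variable {G : Type*} [Group G] {Ω : Type*} [MulAction G Ω] {p : ℕ}

/-- the normal closure of `x` inside `closure s` -/
def NF (x : G) (s : Set G) : Subgroup G :=
  Subgroup.closure ((fun f : G => f * x * f⁻¹) '' (Subgroup.closure s : Set G))

theorem NF_mono (x : G) {s t : Set G} (h : s ⊆ t) : NF x s ≤ NF x t :=
  Subgroup.closure_mono (Set.image_mono (Subgroup.closure_mono h))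

theorem NF_conj (x : G) (s : Set G) {f : G} (hf : f ∈ Subgroup.closure s) :
    (NF x s).map (MulAut.conj f).toMonoidHom ≤ NF x s := by
  rw [NF, MonoidHom.map_closure, Subgroup.closure_le]
  rintro _ ⟨_, ⟨g, hg, rfl⟩, rfl⟩
  apply Subgroup.subset_closure
  refine ⟨f * g, mul_mem hf hg, ?_⟩
  simp [mul_assoc]

theorem closure_conj (s : Set G) {f : G} (hf : f ∈ Subgroup.closure s) :
    (Subgroup.closure s).map (MulAut.conj f).toMonoidHom ≤ Subgroup.closure s := by
  rintro _ ⟨g, hg, rfl⟩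
  exact mul_mem (mul_mem hf hg) (inv_mem hf)

theorem Ctx.nilp (c : Ctx G Ω p) {s : Set G} (hs : s.Finite) :
    Group.IsNilpotent (Subgroup.closure s) := by
  have : Fact p.Prime := ⟨c.prime⟩
  have : Finite (Subgroup.closure s) := c.lf s hs
  exact (c.pgrp.to_subgroup _).isNilpotent

theorem Ctx.eq_one_of (c : Ctx G Ω p) {x : G} {s : Set G} (hs : s.Finite)
    (hxs : x ∈ Subgroup.closure s) (h : x ∈ ⁅NF x s, Subgroup.closure s⁆) : x = 1 := by
  have hN : NF x s ≤ ⁅NF x s, Subgroup.closure s⁆ := by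
    conv_lhs => rw [NF]
    rw [Subgroup.closure_le]
    rintro _ ⟨f, hf, rfl⟩
    have h1 : f * x * f⁻¹ ∈ (⁅NF x s, Subgroup.closure s⁆).map (MulAut.conj f).toMonoidHom :=
      ⟨x, h, rfl⟩
    rw [Subgroup.map_commutator] at h1
    exact Subgroup.commutator_mono (NF_conj x s hf) (closure_conj s hf) h1
  obtain ⟨n, hn⟩ := (Subgroup.isNilpotent_iff_lowerCentralSeries _).mp (c.nilp hs)
  have key : ∀ k, NF x s ≤ (Subgroup.closure s).lowerCentralSeries k := by
    intro k
    induction k with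
    | zero =>
      rw [Subgroup.lowerCentralSeries_zero, NF, Subgroup.closure_le]
      rintro _ ⟨f, hf, rfl⟩
      exact mul_mem (mul_mem hf hxs) (inv_mem hf)
    | succ k ih =>
      rw [Subgroup.lowerCentralSeries_succ]
      exact hN.trans (Subgroup.commutator_mono ih le_rfl)
  have h2 : x ∈ NF x s := Subgroup.subset_closure ⟨1, one_mem _, by simp⟩
  have h3 := key n h2
  rw [hn] at h3
  exact h3

theorem Ctx.normalClosure_ne_top (c : Ctx G Ω p) (x : G) :
    Subgroup.normalClosure {x} ≠ ⊤ := by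
  classical
  intro htop
  have hdir : Directed (· ≤ ·) (fun s : Finset G =>
      ⁅NF x (s : Set G), Subgroup.closure (s : Set G)⁆) := by
    apply Monotone.directed_le
    intro s t hst
    exact Subgroup.commutator_mono (NF_mono x (by exact_mod_cast hst))
      (Subgroup.closure_mono (by exact_mod_cast hst))
  have hdir2 : Directed (· ≤ ·) (fun s : Finset G => NF x (s : Set G)) := by
    apply Monotone.directed_le
    intro s t hst
    exact NF_mono x (by exact_mod_cast hst)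
  have h1 : Subgroup.normalClosure {x} ≤ ⨆ s : Finset G, NF x (s : Set G) := by
    rw [Subgroup.normalClosure, Subgroup.closure_le]
    intro y hy
    rw [Group.mem_conjugatesOfSet_iff] at hy
    obtain ⟨a, ha, hc⟩ := hy
    rw [Set.mem_singleton_iff] at ha
    subst ha
    rw [isConj_iff] at hc
    obtain ⟨g, hg⟩ := hc
    have : y ∈ NF a (({g} : Finset G) : Set G) := by
      apply Subgroup.subset_closure
      exact ⟨g, Subgroup.subset_closure (by simp), hg⟩
    exact le_iSup (fun s : Finset G => NF a (s : Set G)) {g} this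
  have h2 : (⊤ : Subgroup G) ≤ ⨆ s : Finset G, ⁅NF x (s : Set G), Subgroup.closure (s : Set G)⁆ := by
    have h3 : (⊤ : Subgroup G) = ⁅Subgroup.normalClosure {x}, (⊤ : Subgroup G)⁆ := by
      rw [htop, ← commutator_def, c.perf]
    rw [h3, Subgroup.commutator_le]
    intro a ha b _
    obtain ⟨s, hs⟩ := (Subgroup.mem_iSup_of_directed hdir2).mp (h1 ha)
    have h4 : ⁅a, b⁆ ∈ ⁅NF x ((insert b s : Finset G) : Set G),
        Subgroup.closure ((insert b s : Finset G) : Set G)⁆ := by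
      apply Subgroup.commutator_mem_commutator
      · exact NF_mono x (by simp) hs
      · exact Subgroup.subset_closure (by simp)
    exact le_iSup (fun s : Finset G => ⁅NF x (s : Set G), Subgroup.closure (s : Set G)⁆)
      (insert b s) h4
  obtain ⟨s, hs⟩ := (Subgroup.mem_iSup_of_directed hdir).mp (h2 (Subgroup.mem_top x))
  have h5 : x = 1 := by
    apply c.eq_one_of (s := ((insert x s : Finset G) : Set G)) (Finset.finite_toSet _)
    · exact Subgroup.subset_closure (by simp)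
    · exact Subgroup.commutator_mono (NF_mono x (by simp)) (Subgroup.closure_mono (by simp)) hs
  subst h5
  apply c.bot_ne_top
  rw [← htop, eq_comm, Subgroup.normalClosure_eq_bot_iff]

theorem Ctx.step2 (c : Ctx G Ω p) {W : Subgroup G} (hW : W ≠ ⊤) :
    ∃ R : Subgroup G, R.Normal ∧ R ≠ ⊤ ∧ R ≤ ⁅R, (⊤ : Subgroup G)⁆ ∧ ¬ R ≤ W := by
  by_contra hcon
  push Not at hcon
  apply hW
  rw [eq_top_iff, ← c.perf, commutator_def, Subgroup.commutator_le]
  intro x _ g _
  have h1 := hcon ⁅Subgroup.normalClosure {x}, (⊤ : Subgroup G)⁆ inferInstance (by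
    intro h
    apply c.normalClosure_ne_top x
    rw [eq_top_iff, ← h]
    exact Subgroup.commutator_le_left _ _) (c.sharp _)
  apply h1
  exact Subgroup.commutator_mem_commutator
    (Subgroup.subset_normalClosure (Set.mem_singleton x)) (Subgroup.mem_top g)

/-- finiteness of coset images -/
theorem Ctx.fin_image (c : Ctx G Ω p) {R : Subgroup G} (hR : R ≠ ⊤) {Δ : Set Ω} (hΔ : Δ.Finite)
    (S : Subgroup G) (hS : ∀ x ∈ R, (∀ ω ∈ Δ, x • ω = ω) → x ∈ S) :
    ((fun x : G => (x : G ⧸ S)) '' (R : Set G)).Finite := by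
  classical
  have hf : Finite Δ := hΔ
  have h1 : ((fun x : G => (fun δ : Δ => x • (δ : Ω))) '' (R : Set G)).Finite := by
    apply (Set.Finite.pi' (fun δ : Δ => c.orb hR (δ : Ω))).subset
    rintro _ ⟨x, hx, rfl⟩ δ
    exact ⟨x, hx, rfl⟩
  apply Set.Finite.of_surjOn (f := fun F : Δ → Ω =>
    (if h : ∃ x ∈ R, (fun δ : Δ => x • (δ : Ω)) = F then ((h.choose : G) : G ⧸ S) else
      ((1 : G) : G ⧸ S))) _ h1
  rintro _ ⟨x, hx, rfl⟩
  refine ⟨_, ⟨x, hx, rfl⟩, ?_⟩
  have hex : ∃ y ∈ R, (fun δ : Δ => y • (δ : Ω)) = (fun δ : Δ => x • (δ : Ω)) := ⟨x, hx, rfl⟩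
  simp only
  rw [dif_pos hex]
  obtain ⟨h2, h3⟩ := hex.choose_spec
  apply QuotientGroup.eq.mpr
  apply hS _ (mul_mem (inv_mem h2) hx)
  intro ω hω
  rw [mul_smul, inv_smul_eq_iff]
  exact (congrFun h3 ⟨ω, hω⟩).symm

theorem fin_image_inf {R L : Subgroup G}
    (h : ((fun x : G => (x : G ⧸ L)) '' (R : Set G)).Finite) :
    ((fun x : G => (x : G ⧸ (R ⊓ L))) '' (R : Set G)).Finite := by
  classical
  apply Set.Finite.of_surjOn (f := fun q : G ⧸ L =>
    (if h : ∃ x ∈ R, (x : G ⧸ L) = q then ((h.choose : G) : G ⧸ (R ⊓ L)) else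
      ((1 : G) : G ⧸ (R ⊓ L)))) _ h
  rintro _ ⟨x, hx, rfl⟩
  refine ⟨_, ⟨x, hx, rfl⟩, ?_⟩
  have hex : ∃ y ∈ R, (y : G ⧸ L) = (x : G ⧸ L) := ⟨x, hx, rfl⟩
  simp only
  rw [dif_pos hex]
  obtain ⟨h2, h3⟩ := hex.choose_spec
  apply QuotientGroup.eq.mpr
  exact Subgroup.mem_inf.mpr ⟨R.mul_mem (R.inv_mem h2) hx, QuotientGroup.eq.mp h3⟩

theorem finite_between {G : Type*} [Group G] (A R : Subgroup G)
    (hfin : ((fun x : G => (x : G ⧸ A)) '' (R : Set G)).Finite) :
    {S : Subgroup G | A ≤ S ∧ S ≤ R}.Finite := by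
  apply Set.Finite.of_finite_image (f := fun S : Subgroup G =>
    ((fun x : G => (x : G ⧸ A)) '' (S : Set G)))
  · apply hfin.finite_subsets.subset
    rintro _ ⟨S, ⟨_, hS⟩, rfl⟩
    exact Set.image_mono hS
  · have key : ∀ S T : Subgroup G, A ≤ T → ((fun x : G => (x : G ⧸ A)) '' (S : Set G)) =
        ((fun x : G => (x : G ⧸ A)) '' (T : Set G)) → S ≤ T := by
      intro S T hT h x hx
      have : (x : G ⧸ A) ∈ ((fun x : G => (x : G ⧸ A)) '' (T : Set G)) := by
        rw [← h]; exact ⟨x, hx, rfl⟩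
      obtain ⟨t, ht, htx⟩ := this
      have h1 : t⁻¹ * x ∈ A := QuotientGroup.eq.mp htx
      have h2 : x = t * (t⁻¹ * x) := by group
      rw [h2]
      exact mul_mem ht (hT h1)
    intro S hS T hT h
    exact le_antisymm (key S T hT.1 h) (key T S hS.1 h.symm)

/-- the transporter lemma -/
theorem Ctx.transporter (c : Ctx G Ω p) (R : Subgroup G) (hRn : R.Normal)
    (hR : R ≤ ⁅R, (⊤ : Subgroup G)⁆)
    (L L' : Subgroup G) (hL : ((fun x : G => (x : G ⧸ L)) '' (R : Set G)).Finite)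
    (hL' : ((fun x : G => (x : G ⧸ L')) '' (R : Set G)).Finite) (hRL : ¬ R ≤ L') :
    ∃ C : Subgroup G, C ≠ ⊤ ∧ ∀ r : G, (∀ y ∈ R, y ∈ L → r⁻¹ * y * r ∈ L') → r ∈ C := by
  set S := R ⊓ L' with hS
  set Z := Subgroup.normalizer (S : Set G) with hZ
  have hZtop : Z ≠ ⊤ := by
    intro h
    have hSn : S.Normal := Subgroup.normalizer_eq_top_iff.mp h
    have hle := c.commutator_le_of_finite R S (fin_image_inf hL')
    apply hRL
    exact (hR.trans hle).trans inf_le_right
  let f : G → Subgroup G := fun r => S.comap (MulAut.conj r⁻¹).toMonoidHom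
  have hf : ∀ r y, y ∈ f r ↔ r⁻¹ * y * r ∈ S := by
    intro r y
    simp [f, Subgroup.mem_comap]
  obtain ⟨C, hC1, hC2⟩ := c.preimage_bdd hZtop f (by
    intro g h hgh
    rw [hZ, Subgroup.mem_normalizer_iff]
    intro w
    have h1 : w ∈ S ↔ h * w * h⁻¹ ∈ f h := by
      rw [hf]
      have : h⁻¹ * (h * w * h⁻¹) * h = w := by group
      rw [this]
    rw [h1, ← hgh, hf]
    have : g⁻¹ * (h * w * h⁻¹) * g = g⁻¹ * h * w * (g⁻¹ * h)⁻¹ := by group
    rw [this]) (finite_between (R ⊓ L) R (fin_image_inf hL))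
  refine ⟨C, hC1, ?_⟩
  intro r hr
  apply hC2
  constructor
  · intro y hy
    rw [hf]
    refine ⟨?_, hr y hy.1 hy.2⟩
    have := Subgroup.Normal.conj_mem (H := R) inferInstance _ hy.1 r⁻¹
    rwa [inv_inv] at this
  · intro y hy
    rw [hf] at hy
    have := Subgroup.Normal.conj_mem (H := R) inferInstance _ hy.1 r
    have h3 : r * (r⁻¹ * y * r) * r⁻¹ = y := by group
    rwa [h3] at this

theorem fin_stab_image {V : Type*} [MulAction G V] {R : Subgroup G} (v : V)
    (h : ((fun g : G => g • v) '' (R : Set G)).Finite) :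
    ((fun x : G => (x : G ⧸ MulAction.stabilizer G v)) '' (R : Set G)).Finite := by
  classical
  apply Set.Finite.of_surjOn (f := fun q : V =>
    (if h : ∃ x ∈ R, x • v = q then ((h.choose : G) : G ⧸ MulAction.stabilizer G v) else
      ((1 : G) : G ⧸ MulAction.stabilizer G v))) _ h
  rintro _ ⟨x, hx, rfl⟩
  refine ⟨_, ⟨x, hx, rfl⟩, ?_⟩
  have hex : ∃ y ∈ R, y • v = x • v := ⟨x, hx, rfl⟩
  simp only
  rw [dif_pos hex]
  obtain ⟨h2, h3⟩ := hex.choose_spec
  apply QuotientGroup.eq.mpr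
  rw [MulAction.mem_stabilizer_iff, mul_smul, inv_smul_eq_iff]
  exact h3.symm

/-- The mixing lemma. -/
theorem Ctx.mix (c : Ctx G Ω p) {V : Type*} [AddCommGroup V] [DistribMulAction G V]
    (horb : ∀ W : Subgroup G, W ≠ ⊤ → ∀ v : V, ((fun g : G => g • v) '' (W : Set G)).Finite)
    (hfix : ∀ v : V, (∀ g : G, g • v = v) → v = 0) {ι : Type*} [DecidableEq ι] :
    ∀ (k : ℕ) (U : Set V), U.Finite → ∃ C : Subgroup G, C ≠ ⊤ ∧
      ∀ (s : Finset ι) (t : ι → G) (u : ι → V), s.card ≤ k →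
        (∀ i ∈ s, ∀ j ∈ s, i ≠ j → (t i)⁻¹ * t j ∉ C) → (∀ i ∈ s, u i ∈ U) →
        ∑ i ∈ s, t i • u i = 0 → ∀ i ∈ s, u i = 0 := by
  classical
  intro k
  induction k with
  | zero =>
    intro U _
    refine ⟨⊥, c.bot_ne_top, ?_⟩
    intro s t u hs _ _ _ i hi
    have : s = ∅ := Finset.card_eq_zero.mp (Nat.le_zero.mp hs)
    rw [this] at hi
    simp at hi
  | succ k ih =>
    intro U hU
    have hstab : ∀ u : V, u ≠ 0 → MulAction.stabilizer G u ≠ ⊤ := by
      intro u hu h
      apply hu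
      apply hfix
      intro g
      have : g ∈ MulAction.stabilizer G u := by rw [h]; trivial
      exact this
    set W := ⨆ u ∈ U \ {0}, MulAction.stabilizer G u with hW
    have hWt : W ≠ ⊤ := c.biSup_ne_top _ hU.sdiff _ (fun u hu => hstab u hu.2)
    obtain ⟨R, hRn, hRt, hRR, hRW⟩ := c.step2 hWt
    have hRu : ∀ u ∈ U, u ≠ 0 → ¬ R ≤ MulAction.stabilizer G u := by
      intro u hu hu0 hle
      apply hRW
      apply hle.trans
      exact le_biSup (fun u => MulAction.stabilizer G u) (show u ∈ U \ {0} from ⟨hu, hu0⟩)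
    set U' : Set V := ⋃ u ∈ U, (fun y : G => y • u - u) '' (R : Set G) with hU'
    have hU'fin : U'.Finite := by
      apply hU.biUnion
      intro u _
      have h1 := horb R hRt u
      have h2 : (fun y : G => y • u - u) '' (R : Set G) ⊆
          (fun w : V => w - u) '' ((fun y : G => y • u) '' (R : Set G)) := by
        rintro _ ⟨y, hy, rfl⟩
        exact ⟨_, ⟨y, hy, rfl⟩, rfl⟩
      exact (h1.image _).subset h2
    obtain ⟨C1, hC1c, hC1⟩ := ih U' hU'fin
    have hT : ∀ p : V × V, ∃ C : Subgroup G, C ≠ ⊤ ∧ (p.2 ∈ U → p.2 ≠ 0 → ∀ r : G,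
        (∀ y ∈ R, y ∈ MulAction.stabilizer G p.1 → r⁻¹ * y * r ∈ MulAction.stabilizer G p.2) →
          r ∈ C) := by
      intro p
      by_cases hp : p.2 ∈ U ∧ p.2 ≠ 0
      · obtain ⟨C, h1, h2⟩ := c.transporter R hRn hRR (MulAction.stabilizer G p.1)
          (MulAction.stabilizer G p.2) (fin_stab_image _ (horb R hRt _))
          (fin_stab_image _ (horb R hRt _)) (hRu _ hp.1 hp.2)
        exact ⟨C, h1, fun _ _ => h2⟩
      · exact ⟨⊥, c.bot_ne_top, fun h1 h2 => (hp ⟨h1, h2⟩).elim⟩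
    choose T hT1 hT2 using hT
    refine ⟨C1 ⊔ ⨆ p ∈ U ×ˢ U, T p, c.sup_ne_top hC1c (c.biSup_ne_top _ (hU.prod hU) _
      (fun p _ => hT1 p)), ?_⟩
    intro s t u hs hC hu hsum
    by_contra hcon
    push Not at hcon
    obtain ⟨i0, hi0, hu0⟩ := hcon
    have key : ∀ y ∈ R, y ∈ MulAction.stabilizer G (u i0) → ∀ i ∈ s.erase i0,
        ((t i0)⁻¹ * t i)⁻¹ * y * ((t i0)⁻¹ * t i) ∈ MulAction.stabilizer G (u i) := by
      intro y hyR hy
      have h1 : ∑ i ∈ s.erase i0, t i •
          ((((t i0)⁻¹ * t i)⁻¹ * y * ((t i0)⁻¹ * t i)) • u i - u i) = 0 := by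
        have h2 : (t i0 * y * (t i0)⁻¹) • (∑ i ∈ s, t i • u i) - ∑ i ∈ s, t i • u i = 0 := by
          rw [hsum, smul_zero, sub_zero]
        rw [Finset.smul_sum, ← Finset.sum_sub_distrib,
          ← Finset.add_sum_erase s _ hi0] at h2
        have h3 : (t i0 * y * (t i0)⁻¹) • t i0 • u i0 - t i0 • u i0 = 0 := by
          rw [← mul_smul]
          have : t i0 * y * (t i0)⁻¹ * t i0 = t i0 * y := by group
          rw [this, mul_smul, MulAction.mem_stabilizer_iff.mp hy, sub_self]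
        rw [h3, zero_add] at h2
        rw [← h2]
        apply Finset.sum_congr rfl
        intro i _
        rw [smul_sub, ← mul_smul, ← mul_smul]
        congr 2
        group
      have h4 := hC1 (s.erase i0) t
        (fun i => (((t i0)⁻¹ * t i)⁻¹ * y * ((t i0)⁻¹ * t i)) • u i - u i)
        (by rw [Finset.card_erase_of_mem hi0]; omega)
        (fun i hi j hj hij h => hC i (Finset.mem_of_mem_erase hi) j (Finset.mem_of_mem_erase hj)
          hij (Subgroup.mem_sup_left h))
        (by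
          intro i hi
          rw [hU']
          refine Set.mem_biUnion (hu i (Finset.mem_of_mem_erase hi)) ⟨_, ?_, rfl⟩
          have := Subgroup.Normal.conj_mem (H := R) inferInstance _ hyR ((t i0)⁻¹ * t i)⁻¹
          rwa [inv_inv] at this)
        h1
      intro i hi
      rw [MulAction.mem_stabilizer_iff]
      exact sub_eq_zero.mp (h4 i hi)
    have hex : ∃ i ∈ s.erase i0, u i ≠ 0 := by
      by_contra h
      push Not at h
      rw [← Finset.add_sum_erase s _ hi0] at hsum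
      have h1 : ∑ i ∈ s.erase i0, t i • u i = 0 := by
        apply Finset.sum_eq_zero
        intro i hi
        rw [h i hi, smul_zero]
      rw [h1, add_zero, smul_eq_zero_iff_eq] at hsum
      exact hu0 hsum
    obtain ⟨i, hi, hui⟩ := hex
    have hi' := Finset.mem_of_mem_erase hi
    have h5 := hT2 (u i0, u i) (hu i hi') hui ((t i0)⁻¹ * t i)
      (fun y hy1 hy2 => key y hy1 hy2 i hi)
    apply hC i0 hi0 i hi' (Finset.ne_of_mem_erase hi).symm
    apply Subgroup.mem_sup_right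
    exact le_biSup T (show (u i0, u i) ∈ U ×ˢ U from ⟨hu i0 hi0, hu i hi'⟩) h5

end Pool.Agent.H80.BT
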