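import Pool.Agent.H80.BT.B
import Pool.Agent.H80.LN.C6

set_option autoImplicit false

open Set
open scoped Pointwise commutatorElement

namespace Pool.Agent.H80.BT

theorem exists_hom_of_proper (Q : Type*) [Group Q] [Finite Q] [Group.IsNilpotent Q]
    (W : Subgroup Q) (hW : W ≠ ⊤) : ∃ ℓ : ℕ, ℓ.Prime ∧ ∃ f : Q →* Multiplicative (ZMod ℓ),
      (∃ q, f q ≠ 1) ∧ ∀ w ∈ W, f w = 1 := by
  obtain h | ⟨M, hM, hWM⟩ := eq_top_or_exists_le_coatom W
  · exact (hW h).elim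
  · have hMn : M.Normal := Subgroup.NormalizerCondition.normal_of_coatom _
      (Group.normalizerCondition_of_isNilpotent) hM
    have hnt : Nontrivial (Q ⧸ M) := by
      rw [← not_subsingleton_iff_nontrivial]
      intro hs
      apply hM.1
      rw [eq_top_iff]
      intro x _
      rw [← QuotientGroup.eq_one_iff]
      exact Subsingleton.elim _ _
    obtain ⟨ℓ, hℓ, f, q, hq⟩ := Pool.Agent.H80.LN.exists_hom_of_finite_nilpotent (Q ⧸ M)
    refine ⟨ℓ, hℓ, f.comp (QuotientGroup.mk' M), ?_, ?_⟩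
    · obtain ⟨r, rfl⟩ := QuotientGroup.mk'_surjective M q
      exact ⟨r, hq⟩
    · intro w hw
      rw [MonoidHom.comp_apply]
      have : (QuotientGroup.mk' M) w = 1 := (QuotientGroup.eq_one_iff w).mpr (hWM hw)
      rw [this, map_one]

/-- Homomorphisms from `R` to `ZMod ℓ` vanishing on the pointwise stabiliser of some finite set,
extended by zero. -/
def VS {G : Type*} [Group G] (Ω : Type*) [MulAction G Ω] (R : Subgroup G) (ℓ : ℕ) :
    AddSubgroup (G → ZMod ℓ) where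
  carrier := {v | (∀ x, x ∉ R → v x = 0) ∧ (∀ x ∈ R, ∀ y ∈ R, v (x * y) = v x + v y) ∧
    ∃ Δ : Set Ω, Δ.Finite ∧ ∀ x ∈ R, (∀ ω ∈ Δ, x • ω = ω) → v x = 0}
  add_mem' := by
    rintro v w ⟨hv1, hv2, U, hU, hv3⟩ ⟨hw1, hw2, U', hU', hw3⟩
    refine ⟨fun x hx => ?_, fun x hx y hy => ?_, U ∪ U', hU.union hU', ?_⟩
    · simp [hv1 x hx, hw1 x hx]
    · simp only [Pi.add_apply, hv2 x hx y hy, hw2 x hx y hy]
      ring
    · intro x hx hxU
      simp [hv3 x hx (fun ω hω => hxU ω (Or.inl hω)), hw3 x hx (fun ω hω => hxU ω (Or.inr hω))]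
  zero_mem' := ⟨fun _ _ => rfl, fun _ _ _ _ => by simp, ∅, Set.finite_empty,
    fun _ _ _ => rfl⟩
  neg_mem' := by
    rintro v ⟨hv1, hv2, U, hU, hv3⟩
    refine ⟨fun x hx => ?_, fun x hx y hy => ?_, U, hU, ?_⟩
    · simp [hv1 x hx]
    · simp only [Pi.neg_apply, hv2 x hx y hy]
      ring
    · intro x hx hxR
      simp [hv3 x hx hxR]

variable {G : Type*} [Group G] {Ω : Type*} [MulAction G Ω] {p : ℕ}
variable {R : Subgroup G} {ℓ : ℕ}

theorem VS.support (v : VS Ω R ℓ) {x : G} (hx : x ∉ R) : v.1 x = 0 := v.2.1 x hx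

theorem VS.mul (v : VS Ω R ℓ) {x y : G} (hx : x ∈ R) (hy : y ∈ R) :
    v.1 (x * y) = v.1 x + v.1 y :=
  v.2.2.1 x hx y hy

theorem VS.one (v : VS Ω R ℓ) : v.1 1 = 0 := by
  have := VS.mul v (one_mem R) (one_mem R)
  rw [mul_one] at this
  simpa using this

theorem VS.inv (v : VS Ω R ℓ) {x : G} (hx : x ∈ R) : v.1 x⁻¹ = - v.1 x := by
  have := VS.mul v hx (inv_mem hx)
  rw [mul_inv_cancel, VS.one v] at this
  exact (neg_eq_of_add_eq_zero_right this.symm).symm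

/-- The kernel, as a subgroup of `G`. -/
def VS.ker (v : VS Ω R ℓ) : Subgroup G where
  carrier := {x | x ∈ R ∧ v.1 x = 0}
  mul_mem' := by
    rintro a b ⟨ha, ha'⟩ ⟨hb, hb'⟩
    exact ⟨mul_mem ha hb, by rw [VS.mul v ha hb, ha', hb', add_zero]⟩
  one_mem' := ⟨one_mem _, VS.one v⟩
  inv_mem' := by
    rintro a ⟨ha, ha'⟩
    exact ⟨inv_mem ha, by rw [VS.inv v ha, ha', neg_zero]⟩

theorem VS.mem_ker {v : VS Ω R ℓ} {x : G} : x ∈ VS.ker v ↔ x ∈ R ∧ v.1 x = 0 := Iff.rfl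

instance VS.act [hR : R.Normal] : DistribMulAction G (VS Ω R ℓ) where
  smul g v := ⟨fun x => v.1 (g⁻¹ * x * g), by
    refine ⟨fun x hx => ?_, fun x hx y hy => ?_, ?_⟩
    · apply VS.support v
      intro h
      apply hx
      have := hR.conj_mem _ h g
      have h2 : g * (g⁻¹ * x * g) * g⁻¹ = x := by group
      rwa [h2] at this
    · have h1 : g⁻¹ * (x * y) * g = (g⁻¹ * x * g) * (g⁻¹ * y * g) := by group
      have h2 : ∀ z ∈ R, g⁻¹ * z * g ∈ R := by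
        intro z hz
        have := hR.conj_mem _ hz g⁻¹
        rwa [inv_inv] at this
      simp only
      rw [h1]
      exact VS.mul v (h2 x hx) (h2 y hy)
    · obtain ⟨U, hU, hUv⟩ := v.2.2.2
      refine ⟨(fun ω => g • ω) '' U, hU.image _, ?_⟩
      intro x hxR hx
      apply hUv
      · have := hR.conj_mem _ hxR g⁻¹
        rwa [inv_inv] at this
      · intro ω hω
        rw [mul_smul, mul_smul, inv_smul_eq_iff]
        exact hx _ ⟨ω, hω, rfl⟩⟩
  one_smul v := by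
    apply Subtype.ext
    funext x
    change v.1 (1⁻¹ * x * 1) = v.1 x
    simp
  mul_smul g h v := by
    apply Subtype.ext
    funext x
    change v.1 ((g * h)⁻¹ * x * (g * h)) = v.1 (h⁻¹ * (g⁻¹ * x * g) * h)
    have : (g * h)⁻¹ * x * (g * h) = h⁻¹ * (g⁻¹ * x * g) * h := by group
    rw [this]
  smul_zero g := by
    apply Subtype.ext
    funext x
    rfl
  smul_add g v w := by
    apply Subtype.ext
    funext x
    rfl

theorem VS.smul_apply [R.Normal] (g : G) (v : VS Ω R ℓ) (x : G) :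
    (g • v).1 x = v.1 (g⁻¹ * x * g) := rfl

theorem VS.fixed [hR : R.Normal] (hRR : R ≤ ⁅R, (⊤ : Subgroup G)⁆) (v : VS Ω R ℓ)
    (hv : ∀ g : G, g • v = v) : v = 0 := by
  have h1 : ⁅R, (⊤ : Subgroup G)⁆ ≤ VS.ker v := by
    rw [Subgroup.commutator_le]
    intro x hx g _
    have h2 : g * x⁻¹ * g⁻¹ ∈ R := hR.conj_mem _ (inv_mem hx) g
    have h3 : ⁅x, g⁆ = x * (g * x⁻¹ * g⁻¹) := by
      simp [commutatorElement_def, mul_assoc]
    rw [VS.mem_ker, h3]
    refine ⟨mul_mem hx h2, ?_⟩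
    rw [VS.mul v hx h2]
    have h4 : v.1 (g * x⁻¹ * g⁻¹) = v.1 x⁻¹ := by
      have := congrArg (fun w : VS Ω R ℓ => w.1 x⁻¹) (hv g⁻¹)
      simp only [VS.smul_apply, inv_inv] at this
      exact this
    rw [h4, VS.inv v hx, add_neg_cancel]
  have h2 := hRR.trans h1
  apply Subtype.ext
  funext x
  by_cases hx : x ∈ R
  · exact (h2 hx).2
  · exact VS.support v hx

theorem Ctx.finite_vanish (c : Ctx G Ω p) (hℓ : ℓ.Prime) (hR : R ≠ ⊤) {Δ : Set Ω}
    (hΔ : Δ.Finite) : {w : VS Ω R ℓ | ∀ x ∈ R, (∀ ω ∈ Δ, x • ω = ω) → w.1 x = 0}.Finite := by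
  classical
  have hfact : Fact ℓ.Prime := ⟨hℓ⟩
  set A := R ⊓ fixingSubgroup G Δ with hA
  have hAm : ∀ x, x ∈ A ↔ x ∈ R ∧ ∀ ω ∈ Δ, x • ω = ω := by
    intro x
    rw [hA, Subgroup.mem_inf, mem_fixingSubgroup_iff]
  have hfin := c.fin_image hR hΔ A (fun x hx h => (hAm x).mpr ⟨hx, h⟩)
  set F := ((fun x : G => (x : G ⧸ A)) '' (R : Set G)) with hF
  have : Finite F := hfin
  let Φ : {w : VS Ω R ℓ | ∀ x ∈ R, (∀ ω ∈ Δ, x • ω = ω) → w.1 x = 0} → (F → ZMod ℓ) :=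
    fun w f => w.1.1 (f.1.out)
  have hinj : Function.Injective Φ := by
    rintro ⟨w, hw⟩ ⟨w', hw'⟩ h
    apply Subtype.ext
    apply Subtype.ext
    funext x
    simp only
    by_cases hx : x ∈ R
    · have h1 := QuotientGroup.out_eq' (x : G ⧸ A)
      have h2 : ((x : G ⧸ A).out)⁻¹ * x ∈ A := QuotientGroup.eq.mp h1
      have h2' := (hAm _).mp h2
      have h3 : (x : G ⧸ A).out ∈ R := by
        have := mul_mem hx (inv_mem h2'.1)
        have h4 : x * (((x : G ⧸ A).out)⁻¹ * x)⁻¹ = (x : G ⧸ A).out := by group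
        rwa [h4] at this
      have h5 : ∀ w : VS Ω R ℓ, (∀ x ∈ R, (∀ ω ∈ Δ, x • ω = ω) → w.1 x = 0) →
          w.1 x = w.1 ((x : G ⧸ A).out) := by
        intro w hw
        have h6 : x = (x : G ⧸ A).out * (((x : G ⧸ A).out)⁻¹ * x) := by group
        conv_lhs => rw [h6]
        rw [VS.mul w h3 h2'.1, hw _ h2'.1 h2'.2, add_zero]
      rw [h5 w hw, h5 w' hw']
      exact congrFun h ⟨(x : G ⧸ A), ⟨x, hx, rfl⟩⟩
    · rw [VS.support _ hx, VS.support _ hx]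
  have := Finite.of_injective Φ hinj
  exact Set.toFinite _

theorem Ctx.orbit_fin (c : Ctx G Ω p) [hRn : R.Normal] (hℓ : ℓ.Prime) (hR : R ≠ ⊤)
    (W : Subgroup G) (hW : W ≠ ⊤) (v : VS Ω R ℓ) :
    ((fun g : G => g • v) '' (W : Set G)).Finite := by
  obtain ⟨Δ, hΔ, hv⟩ := v.2.2.2
  have hΔ' : (⋃ ω ∈ Δ, ((fun g : G => g • ω) '' (W : Set G))).Finite :=
    hΔ.biUnion (fun ω _ => c.orb hW ω)
  apply (c.finite_vanish hℓ hR hΔ').subset
  rintro _ ⟨w, hw, rfl⟩ x hx hfix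
  simp only
  rw [VS.smul_apply]
  apply hv
  · have := hRn.conj_mem _ hx w⁻¹
    rwa [inv_inv] at this
  · intro ω hω
    rw [mul_smul, mul_smul, inv_smul_eq_iff]
    exact hfix _ (Set.mem_biUnion hω ⟨w, hw, rfl⟩)

/-- existence of characters. -/
theorem Ctx.exists_char (c : Ctx G Ω p) {N : Subgroup G} (hN : N ≠ ⊤) :
    ∃ R : Subgroup G, R.Normal ∧ R ≠ ⊤ ∧ R ≤ ⁅R, (⊤ : Subgroup G)⁆ ∧
      ∃ ℓ : ℕ, ℓ.Prime ∧ ∃ v : VS Ω R ℓ, v ≠ 0 ∧ ∀ x ∈ N, v.1 x = 0 := by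
  classical
  have hinf := c.inf
  obtain ⟨ω⟩ : Nonempty Ω := inferInstance
  set W := N ⊔ MulAction.stabilizer G ω with hW
  have hWt : W ≠ ⊤ := c.sup_ne_top hN (c.stab_ne_top ω)
  obtain ⟨R, hRn, hRt, hRR, hRW⟩ := c.step2 hWt
  refine ⟨R, hRn, hRt, hRR, ?_⟩
  have himg := c.fin_image hRt (Set.finite_singleton ω) W (by
    intro x _ hx
    exact Subgroup.mem_sup_right (hx ω rfl))
  have hfin : Finite (R ⧸ (W.subgroupOf R)) := by
    have : Finite ((fun x : G => (x : G ⧸ W)) '' (R : Set G)) := himg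
    apply Finite.of_injective (β := ((fun x : G => (x : G ⧸ W)) '' (R : Set G)))
      (fun q => ⟨((q.out : R) : G), ⟨_, (q.out).2, rfl⟩⟩)
    intro q q' h
    have h1 := congrArg Subtype.val h
    simp only at h1
    have h2 : (q.out : G)⁻¹ * (q'.out : G) ∈ W := QuotientGroup.eq.mp h1
    have h3 : ((q.out : R) : R ⧸ (W.subgroupOf R)) = ((q'.out : R) : R ⧸ (W.subgroupOf R)) := by
      apply QuotientGroup.eq.mpr
      rw [Subgroup.mem_subgroupOf]
      exact h2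
    rwa [QuotientGroup.out_eq', QuotientGroup.out_eq'] at h3
  have hfi : (W.subgroupOf R).FiniteIndex := Subgroup.finiteIndex_of_finite_quotient
  set K := (W.subgroupOf R).normalCore with hK
  have hfact : Fact p.Prime := ⟨c.prime⟩
  have hnil : Group.IsNilpotent (R ⧸ K) := ((c.pgrp.to_subgroup R).to_quotient K).isNilpotent
  have hWK : (W.subgroupOf R).map (QuotientGroup.mk' K) ≠ ⊤ := by
    intro h
    apply hRW
    intro x hx
    have h1 : (QuotientGroup.mk' K) (⟨x, hx⟩ : R) ∈ (W.subgroupOf R).map (QuotientGroup.mk' K) := by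
      rw [h]; trivial
    obtain ⟨y, hy, hyx⟩ := h1
    have h2 : y⁻¹ * (⟨x, hx⟩ : R) ∈ K := QuotientGroup.eq.mp hyx
    have h3 := Subgroup.normalCore_le (W.subgroupOf R) h2
    have h4 := mul_mem hy h3
    rw [mul_inv_cancel_left] at h4
    exact h4
  obtain ⟨ℓ, hℓ, f, ⟨q, hq⟩, hf⟩ := exists_hom_of_proper (R ⧸ K) _ hWK
  let F : R →* Multiplicative (ZMod ℓ) := f.comp (QuotientGroup.mk' K)
  have hFW : ∀ x : R, (x : G) ∈ W → F x = 1 := by
    intro x hx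
    exact hf _ ⟨x, hx, rfl⟩
  refine ⟨ℓ, hℓ, ⟨fun x => if h : x ∈ R then (F ⟨x, h⟩).toAdd else 0, ?_, ?_, ?_⟩, ?_, ?_⟩
  · intro x hx
    simp [hx]
  · intro x hx y hy
    simp only [dif_pos hx, dif_pos hy, dif_pos (mul_mem hx hy)]
    have : (⟨x * y, mul_mem hx hy⟩ : R) = ⟨x, hx⟩ * ⟨y, hy⟩ := rfl
    rw [this, map_mul, toAdd_mul]
  · refine ⟨{ω}, Set.finite_singleton ω, ?_⟩
    intro x hxR hx
    simp only [dif_pos hxR]
    rw [hFW ⟨x, hxR⟩ (Subgroup.mem_sup_right (hx ω rfl))]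
    rfl
  · intro h
    obtain ⟨r, rfl⟩ := QuotientGroup.mk'_surjective K q
    apply hq
    have h2 := congrArg (fun w : VS Ω R ℓ => w.1 r.1) h
    simp only [dif_pos r.2] at h2
    exact h2
  · intro x hx
    simp only
    split_ifs with h
    · rw [hFW ⟨x, h⟩ (Subgroup.mem_sup_left hx)]
      rfl
    · rfl

theorem VS.sum_pow [hR : R.Normal] (g c : G) (hc : c ∈ R) : ∀ n : ℕ,
    (g⁻¹ ^ n * (g * c) ^ n ∈ R) ∧
    ∀ v : VS Ω R ℓ, v.1 (g⁻¹ ^ n * (g * c) ^ n) = ∑ a ∈ Finset.range n, (g ^ a • v).1 c := by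
  intro n
  induction n with
  | zero =>
    refine ⟨by simp, ?_⟩
    intro v
    simp [VS.one]
  | succ n ih =>
    have h1 : g⁻¹ ^ (n + 1) * (g * c) ^ (n + 1) = (g⁻¹ * (g⁻¹ ^ n * (g * c) ^ n) * g) * c := by
      rw [pow_succ' g⁻¹ n, pow_succ (g * c) n]
      group
    have h2 : g⁻¹ * (g⁻¹ ^ n * (g * c) ^ n) * g ∈ R := by
      have := hR.conj_mem _ ih.1 g⁻¹
      rwa [inv_inv] at this
    refine ⟨by rw [h1]; exact mul_mem h2 hc, ?_⟩
    intro v
    rw [h1, VS.mul v h2 hc, Finset.sum_range_succ', pow_zero, one_smul]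
    congr 1
    have h3 := ih.2 (g • v)
    rw [VS.smul_apply] at h3
    rw [h3]
    apply Finset.sum_congr rfl
    intro a _
    rw [pow_succ, mul_smul]

end Pool.Agent.H80.BT
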