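import Pool.Agent.H80.BT.C

set_option autoImplicit false

open Set
open scoped Pointwise commutatorElement

namespace Pool.Agent.H80.BT

variable {G : Type*} [Group G] {Ω : Type*} [MulAction G Ω] {p : ℕ}

theorem Ctx.normalClosure_finite_ne_top (c : Ctx G Ω p) {s : Set G} (hs : s.Finite) :
    Subgroup.normalClosure s ≠ ⊤ := by
  have key : Subgroup.normalClosure s ≤ ⨆ x ∈ s, Subgroup.normalClosure {x} := by
    have hn : (⨆ x ∈ s, Subgroup.normalClosure {x}).Normal := by
      constructor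
      intro n hn g
      have h1 : (⨆ x ∈ s, Subgroup.normalClosure {x}).map (MulAut.conj g).toMonoidHom ≤
          ⨆ x ∈ s, Subgroup.normalClosure {x} := by
        simp only [Subgroup.map_iSup]
        apply iSup₂_mono
        intro x _
        rintro _ ⟨y, hy, rfl⟩
        exact Subgroup.normalClosure_normal.conj_mem y hy g
      exact h1 ⟨n, hn, rfl⟩
    apply Subgroup.normalClosure_le_normal
    intro x hx
    exact le_biSup (fun x => Subgroup.normalClosure {x}) hx
      (Subgroup.subset_normalClosure (Set.mem_singleton x))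
  intro h
  apply c.biSup_ne_top s hs (fun x => Subgroup.normalClosure {x})
    (fun x _ => c.normalClosure_ne_top x)
  rw [eq_top_iff, ← h]
  exact key

theorem Ctx.no_open (c : Ctx G Ω p) {N : Subgroup G} [N.Normal] (hN : N ≠ ⊤) {Δ : Set Ω}
    (hΔ : Δ.Finite) (h : ∀ x : G, (∀ ω ∈ Δ, x • ω = ω) → x ∈ N) : False := by
  obtain ⟨R, hRn, hRt, hRR, hRW⟩ := c.step2 hN
  have h1 := c.commutator_le_of_finite R N (c.fin_image hRt hΔ N (fun x _ hx => h x hx))
  exact hRW (hRR.trans h1)

/-- The subgroup of elements moving only points of `T` in `G ⧸ K` lies in a proper normal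
subgroup when `T` is finite. -/
theorem Ctx.supp_bdd (c : Ctx G Ω p) {K : Subgroup G} (hK : K ≠ ⊤) (T : Finset (G ⧸ K)) :
    ∃ N : Subgroup G, N.Normal ∧ N ≠ ⊤ ∧ ∀ y : G, (∀ z : G ⧸ K, z ∉ T → y • z = z) → y ∈ N := by
  classical
  set Y : Set G := {y : G | ∀ z : G ⧸ K, z ∉ T → y • z = z} with hY
  have hYT : ∀ y ∈ Y, ∀ z ∈ T, y • z ∈ T := by
    intro y hy z hz
    by_contra h
    have h1 := hy _ h
    have h2 : y • z = z := MulAction.injective y h1
    rw [h2] at h
    exact h hz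
  have hfin : ((fun y : G => (fun z : T => y • (z : G ⧸ K))) '' Y).Finite := by
    apply (Set.Finite.pi' (fun _ : T => (T : Set (G ⧸ K)).toFinite)).subset
    rintro _ ⟨y, hy, rfl⟩ z
    exact hYT y hy z.1 z.2
  have hch : ∀ φ : T → G ⧸ K, ∃ y : G, φ ∈ ((fun y : G => (fun z : T => y • (z : G ⧸ K))) '' Y) →
      y ∈ Y ∧ (fun z : T => y • (z : G ⧸ K)) = φ := by
    intro φ
    by_cases h : φ ∈ ((fun y : G => (fun z : T => y • (z : G ⧸ K))) '' Y)
    · obtain ⟨y, hy, hy2⟩ := h
      exact ⟨y, fun _ => ⟨hy, hy2⟩⟩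
    · exact ⟨1, fun h' => (h h').elim⟩
  choose r hr using hch
  set s := r '' ((fun y : G => (fun z : T => y • (z : G ⧸ K))) '' Y) with hs
  refine ⟨K.normalCore ⊔ Subgroup.normalClosure s, inferInstance, ?_, ?_⟩
  · apply c.sup_ne_top
    · intro h
      apply hK
      rw [eq_top_iff, ← h]
      exact Subgroup.normalCore_le K
    · exact c.normalClosure_finite_ne_top (hfin.image r)
  · intro y hy
    have h1 := hr _ ⟨y, hy, rfl⟩
    set y' := r (fun z : T => y • (z : G ⧸ K)) with hy'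
    have h2 : y = y' * (y'⁻¹ * y) := by group
    rw [h2]
    apply mul_mem
    · apply Subgroup.mem_sup_right
      apply Subgroup.subset_normalClosure
      exact ⟨_, ⟨y, hy, rfl⟩, rfl⟩
    · apply Subgroup.mem_sup_left
      rw [Subgroup.normalCore_eq_ker, MonoidHom.mem_ker]
      ext z
      rw [MulAction.toPermHom_apply, MulAction.toPerm_apply, Equiv.Perm.one_apply, mul_smul,
        inv_smul_eq_iff]
      by_cases hz : z ∈ T
      · exact (congrFun h1.2 ⟨z, hz⟩).symm
      · rw [hy z hz, h1.1 z hz]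

/-- greedy selection -/
theorem greedy {X : Type*} [DecidableEq X] (T : Finset X) (q : ℕ) (f : ℤ → X → X)
    (hf : ∀ c x y, f c x = y ↔ f (-c) y = x) (hf0 : ∀ x, f 0 x = x) :
    ∀ m : ℕ, m * (2 * q + 1) ≤ T.card → ∃ A ⊆ T, A.card = m ∧ ∀ x ∈ A, ∀ y ∈ A, x ≠ y →
      ∀ c ∈ Finset.Icc (-(q : ℤ)) q, f c x ≠ y := by
  intro m
  induction m with
  | zero => intro _; exact ⟨∅, by simp, by simp, by simp⟩
  | succ m ih =>
    intro hm
    obtain ⟨A, hAT, hAc, hA⟩ := ih (by nlinarith)
    set F := A.biUnion (fun x => (Finset.Icc (-(q : ℤ)) q).image (fun c => f c x)) with hF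
    have hFc : F.card ≤ m * (2 * q + 1) := by
      rw [← hAc]
      apply Finset.card_biUnion_le_card_mul
      intro x _
      apply Finset.card_image_le.trans
      rw [Int.card_Icc]
      omega
    have hlt : F.card < T.card := by
      have : m * (2 * q + 1) < (m + 1) * (2 * q + 1) := by nlinarith
      omega
    obtain ⟨y, hyT, hyF⟩ := Finset.exists_mem_notMem_of_card_lt_card hlt
    have hyA : y ∉ A := by
      intro h
      apply hyF
      rw [hF, Finset.mem_biUnion]
      exact ⟨y, h, Finset.mem_image.mpr ⟨0, by simp, hf0 y⟩⟩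
    refine ⟨insert y A, ?_, ?_, ?_⟩
    · exact Finset.insert_subset hyT hAT
    · rw [Finset.card_insert_of_notMem hyA, hAc]
    · have h1 : ∀ x ∈ A, ∀ c ∈ Finset.Icc (-(q : ℤ)) q, f c x ≠ y := by
        intro x hx c hc h
        apply hyF
        rw [hF, Finset.mem_biUnion]
        exact ⟨x, hx, Finset.mem_image.mpr ⟨c, hc, h⟩⟩
      intro x hx z hz hxz c hc
      rw [Finset.mem_insert] at hx hz
      rcases hx with rfl | hx <;> rcases hz with rfl | hz
      · exact (hxz rfl).elim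
      · intro h
        rw [hf] at h
        exact h1 z hz (-c) (by rw [Finset.mem_Icc] at hc ⊢; omega) h
      · exact h1 x hx c hc
      · exact hA x hx z hz hxz c hc

/-- In a group of prime power torsion, a power lying in a subgroup can be taken a `p`-power. -/
theorem pow_mem_of_pgroup (hpg : IsPGroup p G) (hp : p.Prime) (N : Subgroup G) (y : G) (m : ℕ)
    (hm : ¬ p ∣ m) (h : y ^ m ∈ N) : y ∈ N := by
  obtain ⟨k, hk⟩ := hpg y
  have hcop : Nat.gcd m (p ^ k) = 1 := by
    apply Nat.Coprime.pow_right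
    exact ((Nat.Prime.coprime_iff_not_dvd hp).mpr hm).symm
  have h1 : y ^ (1 : ℤ) ∈ N := by
    have h2 := Nat.gcd_eq_gcd_ab m (p ^ k)
    rw [hcop] at h2
    have h3 : ((1 : ℕ) : ℤ) = 1 := rfl
    rw [← h3, h2, zpow_add, zpow_mul, zpow_mul, zpow_natCast, zpow_natCast, hk, one_zpow, mul_one]
    exact zpow_mem h _
  simpa using h1

/-- The main theorem. -/
theorem Ctx.main (c : Ctx G Ω p) {N : Subgroup G} [hNn : N.Normal] (hN : N ≠ ⊤) {Δ : Set Ω}
    (hΔ : Δ.Finite) (g : G) (n : ℕ) (hn : 0 < n) :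
    ∃ h : G, (∀ ω ∈ Δ, h • ω = ω) ∧ (g * h) ^ n ∉ N := by
  classical
  by_contra hcon
  push Not at hcon
  let P : ℕ → Prop := fun j => ∃ N : Subgroup G, N.Normal ∧ N ≠ ⊤ ∧ ∃ Δ : Set Ω, Δ.Finite ∧
    ∃ g : G, ∀ h : G, (∀ ω ∈ Δ, h • ω = ω) → (g * h) ^ (p ^ j) ∈ N
  have hP : ∃ j, P j := by
    obtain ⟨j, m, hm, hnm⟩ := Nat.exists_eq_pow_mul_and_not_dvd hn.ne' p c.prime.ne_one
    refine ⟨j, N, hNn, hN, Δ, hΔ, g, ?_⟩
    intro h hh
    apply pow_mem_of_pgroup c.pgrp c.prime N _ m hm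
    rw [← pow_mul, ← hnm]
    exact hcon h hh
  obtain ⟨N, hNn, hN, Δ, hΔ, g, hg⟩ := Nat.find_spec hP
  have hmin : ∀ i < Nat.find hP, ¬ P i := fun i hi => Nat.find_min hP hi
  rcases hj : Nat.find hP with _ | i
  · rw [hj] at hg
    simp only [pow_zero, pow_one] at hg
    apply c.no_open hN hΔ
    intro x hx
    have h1 := hg 1 (fun ω _ => one_smul G ω)
    have h2 := hg x hx
    rw [mul_one] at h1
    have h3 := mul_mem (inv_mem h1) h2
    rwa [inv_mul_cancel_left] at h3
  rw [hj] at hg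
  have hPi := hmin i (by omega)
  have hp := c.prime
  set q := p ^ (i + 1) with hq
  have hqpos : 0 < q := pow_pos hp.pos _
  have hinf := c.inf
  obtain ⟨ω0⟩ : Nonempty Ω := inferInstance
  obtain ⟨R, hRn, hRt, hRR, ℓ, hℓ, v0, hv0, hv0N⟩ := c.exists_char hN
  have hVfin := c.finite_vanish (Ω := Ω) hℓ hRt hΔ
  set M := hVfin.toFinset.card with hM
  obtain ⟨C, hCt, hC⟩ := c.mix (V := VS Ω R ℓ) (fun W hW v => c.orbit_fin hℓ hRt W hW v)
    (fun v hv => VS.fixed hRR v hv) (ι := ℕ × Bool) (2 * q) {v0, -v0}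
    (Set.toFinite _)
  set K' := C ⊔ N ⊔ MulAction.stabilizer G ω0 with hK'
  have hK't : K' ≠ ⊤ := c.sup_ne_top (c.sup_ne_top hCt hN) (c.stab_ne_top ω0)
  have hCK : C ≤ K' := le_sup_left.trans le_sup_left
  have hNK : N ≤ K' := le_sup_right.trans le_sup_left
  have hSK : MulAction.stabilizer G ω0 ≤ K' := le_sup_right
  set B := (M + 1) * (2 * q + 1) with hB
  -- the support claim
  have hsupp : ∃ g0 : G, (∃ h : G, (∀ ω ∈ Δ, h • ω = ω) ∧ g0 = g * h) ∧
      ∃ T : Finset (G ⧸ K'), (∀ z ∈ T, g0 ^ (p ^ i) • z ≠ z) ∧ B ≤ T.card := by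
    by_contra hno
    push Not at hno
    set S : Set ℕ := {n | ∃ g0 : G, (∃ h : G, (∀ ω ∈ Δ, h • ω = ω) ∧ g0 = g * h) ∧
      ∃ T : Finset (G ⧸ K'), (∀ z ∈ T, g0 ^ (p ^ i) • z ≠ z) ∧ T.card = n} with hS
    have hSne : S.Nonempty := ⟨0, g, ⟨1, fun ω _ => one_smul G ω, by simp⟩, ∅, by simp, by simp⟩
    have hSb : BddAbove S := by
      refine ⟨B, ?_⟩
      rintro n ⟨g0, hg0, T, hT, rfl⟩
      exact (hno g0 hg0 T hT).le
    obtain ⟨g0, ⟨h0, hh0, hgh⟩, T, hT, hTc⟩ := Nat.sSup_mem hSne hSb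
    apply hPi
    obtain ⟨N', hN'n, hN't, hN'⟩ := c.supp_bdd hK't T
    set Δ' : Set Ω := Δ ∪ ⋃ z ∈ (T : Set (G ⧸ K')), ⋃ a ∈ (Finset.range (p ^ i) : Set ℕ),
      {(g0 ^ a * z.out) • ω0} with hΔ'
    refine ⟨N', hN'n, hN't, Δ', ?_, g0, ?_⟩
    · apply hΔ.union
      apply (Finset.finite_toSet T).biUnion
      intro z _
      apply (Finset.finite_toSet _).biUnion
      intro a _
      exact Set.finite_singleton _
    · intro h hh
      have hkey : ∀ z ∈ T, ∀ a ≤ p ^ i, (g0 * h) ^ a • z = g0 ^ a • z := by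
        intro z hz a
        induction a with
        | zero => intro _; simp
        | succ a ih =>
          intro ha
          rw [pow_succ', mul_smul, ih (by omega), mul_smul, pow_succ', mul_smul]
          congr 1
          have h1 : h • ((g0 ^ a * z.out) • ω0) = (g0 ^ a * z.out) • ω0 := by
            apply hh
            right
            refine Set.mem_biUnion (Finset.mem_coe.mpr hz) (Set.mem_biUnion (x := a) ?_ rfl)
            rw [Finset.mem_coe, Finset.mem_range]; omega
          have h2 : (g0 ^ a * z.out)⁻¹ * (h * (g0 ^ a * z.out)) ∈ K' := by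
            apply hSK
            rw [MulAction.mem_stabilizer_iff, mul_smul, inv_smul_eq_iff, mul_smul]
            exact h1
          have h3 : ((g0 ^ a * z.out : G) : G ⧸ K') = ((h * (g0 ^ a * z.out) : G) : G ⧸ K') :=
            QuotientGroup.eq.mpr h2
          have h4 : g0 ^ a • z = ((g0 ^ a * z.out : G) : G ⧸ K') := by
            conv_lhs => rw [← QuotientGroup.out_eq' z]
            rfl
          rw [h4]
          exact h3.symm
      apply hN'
      intro y hy
      by_contra hne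
      have hmem : T.card + 1 ∈ S := by
        refine ⟨g0 * h, ⟨h0 * h, ?_, ?_⟩, insert y T, ?_, ?_⟩
        · intro ω hω
          rw [mul_smul, hh ω (Or.inl hω), hh0 ω hω]
        · rw [hgh, mul_assoc]
        · intro z hz
          rw [Finset.mem_insert] at hz
          rcases hz with rfl | hz
          · exact hne
          · rw [hkey z hz _ le_rfl]
            exact hT z hz
        · rw [Finset.card_insert_of_notMem hy]
      have := le_csSup hSb hmem
      omega
  obtain ⟨g0, ⟨h0, hh0, hgh⟩, T, hT, hTc⟩ := hsupp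
  have hg0 : ∀ x : G, (∀ ω ∈ Δ, x • ω = ω) → (g0 * x) ^ q ∈ N := by
    intro x hx
    rw [hgh, mul_assoc]
    apply hg
    intro ω hω
    rw [mul_smul, hx ω hω, hh0 ω hω]
  have hg0q : g0 ^ q ∈ N := by
    have := hg0 1 (fun ω _ => one_smul G ω)
    rwa [mul_one] at this
  have hsum : ∀ v : VS Ω R ℓ, (∀ x ∈ N, v.1 x = 0) →
      (∑ a ∈ Finset.range q, g0 ^ a • v) ∈ hVfin.toFinset := by
    intro v hv
    rw [Set.Finite.mem_toFinset]
    intro x hxR hx
    have h1 : (∑ a ∈ Finset.range q, g0 ^ a • v).1 x = ∑ a ∈ Finset.range q, (g0 ^ a • v).1 x := by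
      have : (∑ a ∈ Finset.range q, g0 ^ a • v).1 = ∑ a ∈ Finset.range q, (g0 ^ a • v).1 := by
        exact map_sum (VS Ω R ℓ).subtype _ _
      rw [this, Finset.sum_apply]
    rw [h1, ← (VS.sum_pow (Ω := Ω) (ℓ := ℓ) g0 x hxR q).2 v]
    apply hv
    rw [inv_pow]
    exact mul_mem (inv_mem hg0q) (hg0 _ hx)
  obtain ⟨A, hAT, hAc, hA⟩ := greedy T q (fun c z => g0 ^ c • z) (by
    intro c x y
    constructor
    · rintro rfl
      rw [← mul_smul, ← zpow_add, neg_add_cancel, zpow_zero, one_smul]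
    · rintro rfl
      rw [← mul_smul, ← zpow_add, add_neg_cancel, zpow_zero, one_smul]) (by
    intro x; simp) (M + 1) hTc
  have hvk : ∀ z : G ⧸ K', ∀ x ∈ N, (z.out • v0).1 x = 0 := by
    intro z x hx
    rw [VS.smul_apply]
    apply hv0N
    have := hNn.conj_mem _ hx (z.out)⁻¹
    rwa [inv_inv] at this
  obtain ⟨x, hxA, y, hyA, hxy, heq⟩ := Finset.exists_ne_map_eq_of_card_lt_of_maps_to
    (s := A) (t := hVfin.toFinset) (by rw [hAc]; omega)
    (f := fun z : G ⧸ K' => ∑ a ∈ Finset.range q, g0 ^ a • (z.out • v0))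
    (fun z _ => hsum _ (hvk z))
  have hnK : ∀ z w : G ⧸ K', ∀ c : ℤ, g0 ^ c • z ≠ w → (w.out)⁻¹ * g0 ^ c * z.out ∉ K' := by
    intro z w c hne hmem
    apply hne
    have h1 : ((w.out : G) : G ⧸ K') = ((g0 ^ c * z.out : G) : G ⧸ K') := by
      apply QuotientGroup.eq.mpr
      rw [← mul_assoc]
      exact hmem
    rw [QuotientGroup.out_eq'] at h1
    rw [h1]
    conv_lhs => rw [← QuotientGroup.out_eq' z]
    rfl
  have hh1 : ∀ z ∈ A, (z.out)⁻¹ * g0 ^ (p ^ i) * z.out ∉ K' := by
    intro z hz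
    have := hnK z z ((p ^ i : ℕ) : ℤ) (by
      rw [zpow_natCast]
      exact hT z (hAT hz))
    rwa [zpow_natCast] at this
  apply hv0
  have hfin := hC (Finset.range q ×ˢ (Finset.univ : Finset Bool))
    (fun ab => g0 ^ ab.1 * (if ab.2 then x.out else y.out))
    (fun ab => if ab.2 then v0 else -v0)
    (by simp; omega)
    (by
      rintro ⟨a, b⟩ hab ⟨a', b'⟩ hab' hne hmem
      simp only [Finset.mem_product, Finset.mem_range, Finset.mem_univ, and_true] at hab hab'
      have hmem' := hCK hmem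
      simp only at hmem'
      have h5 : ∀ x y : G, (g0 ^ a * x)⁻¹ * (g0 ^ a' * y) = x⁻¹ * g0 ^ ((a' : ℤ) - a) * y := by
        intro x y
        rw [mul_inv_rev, zpow_sub, zpow_natCast, zpow_natCast]
        have : g0 ^ a' * (g0 ^ a)⁻¹ = (g0 ^ a)⁻¹ * g0 ^ a' := by
          rw [← zpow_natCast, ← zpow_natCast, ← zpow_neg, ← zpow_add, ← zpow_add, add_comm]
        rw [this]
        group
      rw [h5] at hmem'
      have hIcc : ((a' : ℤ) - a) ∈ Finset.Icc (-(q : ℤ)) q := by
        rw [Finset.mem_Icc]; omega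
      by_cases hbb : b = b'
      · subst hbb
        have haa : a ≠ a' := by
          rintro rfl
          exact hne rfl
        have hc0 : (a' : ℤ) - a ≠ 0 := by omega
        have hclt : |(a' : ℤ) - a| < (p ^ (i + 1) : ℕ) := by
          rw [← hq, abs_lt]; omega
        refine Pool.Agent.H80.LN.gcd_arg K' N hNn hNK p i hp g0 _ hg0q ?_ _ hc0 hclt hmem'
        cases b
        · exact hh1 y hyA
        · exact hh1 x hxA
      · cases b <;> cases b'
        · exact hbb rfl
        · exact hnK x y _ (hA x hxA y hyA hxy _ hIcc) hmem'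
        · exact hnK y x _ (hA y hyA x hxA hxy.symm _ hIcc) hmem'
        · exact hbb rfl)
    (by
      rintro ⟨a, b⟩ _
      cases b <;> simp)
    (by
      rw [Finset.sum_product]
      simp only [Fintype.sum_bool, if_true, Bool.false_eq_true, if_false, smul_neg, mul_smul]
      rw [Finset.sum_add_distrib, Finset.sum_neg_distrib, heq, add_neg_cancel])
  have h6 := hfin (0, true) (by simp [hqpos])
  simpa using h6

end Pool.Agent.H80.BT
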